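import Pool.Agent.LKU.Stmts

/-! # Row EXQ: the example with inner link lengths 1, 21/20, 1, 21/20, 1 -/

set_option autoImplicit false

namespace Pool.Agent.LKW.H59

open Pool.Agent.LCK Pool.Agent.LKT Pool.Agent.LKU

/-- integer homogeneous coordinates of the eight points (scale 180 for the inner vertices, 9 for directions) -/
def P : Fin 8 → Fin 4 → ℤ :=
  ![![0, 7, 4, -4], ![180, 0, 0, 0], ![180, 60, 120, -120], ![180, -24, 99, 48], ![180, 116, 19, -32],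
    ![180, -31, 103, -116], ![180, 49, 83, 44], ![0, -3, -6, -6]]

/-- integer determinant -/
def dz (p q r s : Fin 4 → ℤ) : ℤ :=
  p 0 * (q 1 * (r 2 * s 3 - r 3 * s 2) - q 2 * (r 1 * s 3 - r 3 * s 1) +
      q 3 * (r 1 * s 2 - r 2 * s 1)) -
    p 1 * (q 0 * (r 2 * s 3 - r 3 * s 2) - q 2 * (r 0 * s 3 - r 3 * s 0) +
      q 3 * (r 0 * s 2 - r 2 * s 0)) +
    p 2 * (q 0 * (r 1 * s 3 - r 3 * s 1) - q 1 * (r 0 * s 3 - r 3 * s 0) +
      q 3 * (r 0 * s 1 - r 1 * s 0)) -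
    p 3 * (q 0 * (r 1 * s 2 - r 2 * s 1) - q 1 * (r 0 * s 2 - r 2 * s 0) +
      q 2 * (r 0 * s 1 - r 1 * s 0))

theorem d4_eq (p q r s : Fin 4 → ℝ) : d4 p q r s =
    p 0 * (q 1 * (r 2 * s 3 - r 3 * s 2) - q 2 * (r 1 * s 3 - r 3 * s 1) +
      q 3 * (r 1 * s 2 - r 2 * s 1)) -
    p 1 * (q 0 * (r 2 * s 3 - r 3 * s 2) - q 2 * (r 0 * s 3 - r 3 * s 0) +
      q 3 * (r 0 * s 2 - r 2 * s 0)) +
    p 2 * (q 0 * (r 1 * s 3 - r 3 * s 1) - q 1 * (r 0 * s 3 - r 3 * s 0) +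
      q 3 * (r 0 * s 1 - r 1 * s 0)) -
    p 3 * (q 0 * (r 1 * s 2 - r 2 * s 1) - q 1 * (r 0 * s 2 - r 2 * s 0) +
      q 2 * (r 0 * s 1 - r 1 * s 0)) := by
  unfold d4
  rw [Matrix.det_succ_row_zero]
  simp [Fin.sum_univ_four, Matrix.det_fin_three, Fin.succAbove]
  ring

theorem d4_cast (a b c d : ℝ) (p q r s : Fin 4 → ℤ) :
    d4 (fun i => a * (p i : ℝ)) (fun i => b * (q i : ℝ)) (fun i => c * (r i : ℝ))
      (fun i => d * (s i : ℝ)) = a * b * c * d * ((dz p q r s : ℤ) : ℝ) := by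
  rw [d4_eq]
  unfold dz
  push_cast
  ring

theorem signs : ∀ i < 53, 0 < (tb2 i).2.2.2.2 *
    dz (P (tb2 i).1) (P (tb2 i).2.1) (P (tb2 i).2.2.1) (P (tb2 i).2.2.2.1) := by
  decide +kernel

/-- scaling factors -/
noncomputable def cf (G G' : ℝ) : Fin 8 → ℝ :=
  ![G / 9, 1 / 180, 1 / 180, 1 / 180, 1 / 180, 1 / 180, 1 / 180, G' / 9]

/-- the example -/
noncomputable def ex (G G' : ℝ) : Fin 8 → E3 :=
  fun k => WithLp.toLp 2 ![cf G G' k * (P k 1 : ℝ), cf G G' k * (P k 2 : ℝ), cf G G' k * (P k 3 : ℝ)]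

theorem hom_ex (G G' : ℝ) (k : Fin 8) : hom (ex G G') k = fun i => cf G G' k * (P k i : ℝ) := by
  funext i
  fin_cases k <;> fin_cases i <;> simp [hom, ex, cf, P]

theorem cf_pos (G G' : ℝ) (h : 0 < G) (h' : 0 < G') (k : Fin 8) : 0 < cf G G' k := by
  fin_cases k <;> simp [cf] <;> assumption

theorem nrm (v : E3) (r : ℝ) (hr : 0 ≤ r) (h : v 0 ^ 2 + v 1 ^ 2 + v 2 ^ 2 = r ^ 2) : ‖v‖ = r := by
  rw [EuclideanSpace.norm_eq, Fin.sum_univ_three, Real.norm_eq_abs, Real.norm_eq_abs,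
    Real.norm_eq_abs, sq_abs, sq_abs, sq_abs, h, Real.sqrt_sq hr]

/-- EXQ: the example -/
theorem exq : ∀ G G' : ℝ, 0 < G → 0 < G' → ∃ x ∈ X2, D x 0 1 2 3 ≠ 0 ∧
    ‖x 0‖ = G ∧ ‖x 7‖ = G' ∧ ‖x 2 - x 1‖ = 1 ∧ ‖x 3 - x 2‖ = 21 / 20 ∧ ‖x 4 - x 3‖ = 1 ∧
    ‖x 5 - x 4‖ = 21 / 20 ∧ ‖x 6 - x 5‖ = 1 := by
  intro G G' h h'
  refine ⟨ex G G', ?_, ?_, ?_, ?_, ?_, ?_, ?_, ?_, ?_⟩
  · intro i hi
    unfold F2 D
    rw [hom_ex, hom_ex, hom_ex, hom_ex, d4_cast]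
    have h1 := signs i hi
    have h2 : (0 : ℝ) < ((tb2 i).2.2.2.2 : ℝ) *
        ((dz (P (tb2 i).1) (P (tb2 i).2.1) (P (tb2 i).2.2.1) (P (tb2 i).2.2.2.1) : ℤ) : ℝ) := by
      exact_mod_cast h1
    have h3 := mul_pos (mul_pos (mul_pos (mul_pos (cf_pos G G' h h' (tb2 i).1)
      (cf_pos G G' h h' (tb2 i).2.1)) (cf_pos G G' h h' (tb2 i).2.2.1))
      (cf_pos G G' h h' (tb2 i).2.2.2.1)) h2
    calc (0 : ℝ) < _ := h3
      _ = _ := by ring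
  · unfold D
    rw [hom_ex, hom_ex, hom_ex, hom_ex, d4_cast]
    have h1 : dz (P 0) (P 1) (P 2) (P 3) ≠ 0 := by decide +kernel
    refine mul_ne_zero (mul_ne_zero (mul_ne_zero (mul_ne_zero (cf_pos G G' h h' _).ne'
      (cf_pos G G' h h' _).ne') (cf_pos G G' h h' _).ne') (cf_pos G G' h h' _).ne') ?_
    exact_mod_cast h1
  · refine nrm _ _ h.le ?_
    simp [ex, cf, P]
    ring
  · refine nrm _ _ h'.le ?_
    simp [ex, cf, P]
    ring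
  · refine nrm _ _ (by norm_num) ?_
    simp [ex, cf, P]
    norm_num
  · refine nrm _ _ (by norm_num) ?_
    simp [ex, cf, P]
    norm_num
  · refine nrm _ _ (by norm_num) ?_
    simp [ex, cf, P]
    norm_num
  · refine nrm _ _ (by norm_num) ?_
    simp [ex, cf, P]
    norm_num
  · refine nrm _ _ (by norm_num) ?_
    simp [ex, cf, P]
    norm_num

end Pool.Agent.LKW.H59
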