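import Pool.Agent.LKU.Stmts

/-! # Row EXR: the example with inner link lengths 1, b, 1, b, 1 for every b in [21/20, 13/10] -/

set_option autoImplicit false

namespace Pool.Agent.LKW.H59R

open Pool.Agent.LCK Pool.Agent.LKT Pool.Agent.LKU

/-- constant parts of the integer homogeneous coordinates (scale 21) -/
def U : Fin 8 → Fin 4 → ℤ :=
  ![![0, -20, -4, -5], ![21, 0, 0, 0], ![21, -4, 5, -20], ![21, -4, 5, -20], ![21, -23, 13, -16],
    ![21, -23, 13, -16], ![21, -29, -5, -7], ![0, -4, 20, -5]]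

/-- coefficients of b of the integer homogeneous coordinates (scale 21) -/
def V : Fin 8 → Fin 4 → ℤ :=
  ![![0, 0, 0, 0], ![0, 0, 0, 0], ![0, 0, 0, 0], ![0, 4, -13, 16], ![0, 4, -13, 16],
    ![0, 22, -7, 7], ![0, 22, -7, 7], ![0, 0, 0, 0]]

/-- integer determinant -/
def dz (p q r s : Fin 4 → ℤ) : ℤ :=
  p 0 * (q 1 * (r 2 * s 3 - r 3 * s 2) - q 2 * (r 1 * s 3 - r 3 * s 1) +
      q 3 * (r 1 * s 2 - r 2 * s 1)) -
    p 1 * (q 0 * (r 2 * s 3 - r 3 * s 2) - q 2 * (r 0 * s 3 - r 3 * s 0) +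
      q 3 * (r 0 * s 2 - r 2 * s 0)) +
    p 2 * (q 0 * (r 1 * s 3 - r 3 * s 1) - q 1 * (r 0 * s 3 - r 3 * s 0) +
      q 3 * (r 0 * s 1 - r 1 * s 0)) -
    p 3 * (q 0 * (r 1 * s 2 - r 2 * s 1) - q 1 * (r 0 * s 2 - r 2 * s 0) +
      q 2 * (r 0 * s 1 - r 1 * s 0))

/-- coefficient of b ^ 0 -/
def c0 (i j k l : Fin 8) : ℤ := dz (U i) (U j) (U k) (U l)

/-- coefficient of b ^ 1 -/
def c1 (i j k l : Fin 8) : ℤ :=
  dz (V i) (U j) (U k) (U l) + dz (U i) (V j) (U k) (U l) + dz (U i) (U j) (V k) (U l) +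
    dz (U i) (U j) (U k) (V l)

/-- coefficient of b ^ 2 -/
def c2 (i j k l : Fin 8) : ℤ :=
  dz (V i) (V j) (U k) (U l) + dz (V i) (U j) (V k) (U l) + dz (V i) (U j) (U k) (V l) +
    dz (U i) (V j) (V k) (U l) + dz (U i) (V j) (U k) (V l) + dz (U i) (U j) (V k) (V l)

/-- coefficient of b ^ 3 -/
def c3 (i j k l : Fin 8) : ℤ :=
  dz (U i) (V j) (V k) (V l) + dz (V i) (U j) (V k) (V l) + dz (V i) (V j) (U k) (V l) +
    dz (V i) (V j) (V k) (U l)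

/-- coefficient of b ^ 4 -/
def c4 (i j k l : Fin 8) : ℤ := dz (V i) (V j) (V k) (V l)

theorem d4_eq (p q r s : Fin 4 → ℝ) : d4 p q r s =
    p 0 * (q 1 * (r 2 * s 3 - r 3 * s 2) - q 2 * (r 1 * s 3 - r 3 * s 1) +
      q 3 * (r 1 * s 2 - r 2 * s 1)) -
    p 1 * (q 0 * (r 2 * s 3 - r 3 * s 2) - q 2 * (r 0 * s 3 - r 3 * s 0) +
      q 3 * (r 0 * s 2 - r 2 * s 0)) +
    p 2 * (q 0 * (r 1 * s 3 - r 3 * s 1) - q 1 * (r 0 * s 3 - r 3 * s 0) +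
      q 3 * (r 0 * s 1 - r 1 * s 0)) -
    p 3 * (q 0 * (r 1 * s 2 - r 2 * s 1) - q 1 * (r 0 * s 2 - r 2 * s 0) +
      q 2 * (r 0 * s 1 - r 1 * s 0)) := by
  unfold d4
  rw [Matrix.det_succ_row_zero]
  simp [Fin.sum_univ_four, Matrix.det_fin_three, Fin.succAbove]
  ring

theorem d4_cast (b α β γ δ : ℝ) (i j k l : Fin 8) :
    d4 (fun m => α * ((U i m : ℝ) + b * (V i m : ℝ))) (fun m => β * ((U j m : ℝ) + b * (V j m : ℝ)))
      (fun m => γ * ((U k m : ℝ) + b * (V k m : ℝ))) (fun m => δ * ((U l m : ℝ) + b * (V l m : ℝ))) =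
    α * β * γ * δ * ((c0 i j k l : ℝ) + (c1 i j k l : ℝ) * b + (c2 i j k l : ℝ) * b ^ 2 +
      (c3 i j k l : ℝ) * b ^ 3 + (c4 i j k l : ℝ) * b ^ 4) := by
  rw [d4_eq]
  unfold c0 c1 c2 c3 c4 dz
  generalize U i = a1
  generalize U j = a2
  generalize U k = a3
  generalize U l = a4
  generalize V i = b1
  generalize V j = b2
  generalize V k = b3
  generalize V l = b4
  push_cast
  ring

/-- Bernstein criterion on [21/20, 13/10] -/
theorem bern (C0 C1 C2 b : ℝ) (h1 : 21 / 20 ≤ b) (h2 : b ≤ 13 / 10)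
    (k0 : 0 < 400 * C0 + 420 * C1 + 441 * C2) (k1 : 0 < 400 * C0 + 470 * C1 + 546 * C2)
    (k2 : 0 < 400 * C0 + 520 * C1 + 676 * C2) : 0 < C0 + C1 * b + C2 * b ^ 2 := by
  have e : 10000 * (C0 + C1 * b + C2 * b ^ 2) =
      (26 - 20 * b) ^ 2 * (400 * C0 + 420 * C1 + 441 * C2) +
      2 * ((26 - 20 * b) * (20 * b - 21)) * (400 * C0 + 470 * C1 + 546 * C2) +
      (20 * b - 21) ^ 2 * (400 * C0 + 520 * C1 + 676 * C2) := by ring
  have t2 : 0 ≤ 2 * ((26 - 20 * b) * (20 * b - 21)) * (400 * C0 + 470 * C1 + 546 * C2) :=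
    mul_nonneg (mul_nonneg (by norm_num) (mul_nonneg (by linarith) (by linarith))) k1.le
  rcases lt_or_ge b (13 / 10) with hb | hb
  · have t1 : 0 < (26 - 20 * b) ^ 2 * (400 * C0 + 420 * C1 + 441 * C2) :=
      mul_pos (pow_pos (by linarith) 2) k0
    have t3 : 0 ≤ (20 * b - 21) ^ 2 * (400 * C0 + 520 * C1 + 676 * C2) :=
      mul_nonneg (sq_nonneg _) k2.le
    linarith
  · have t1 : 0 ≤ (26 - 20 * b) ^ 2 * (400 * C0 + 420 * C1 + 441 * C2) :=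
      mul_nonneg (sq_nonneg _) k0.le
    have t3 : 0 < (20 * b - 21) ^ 2 * (400 * C0 + 520 * C1 + 676 * C2) :=
      mul_pos (pow_pos (by linarith) 2) k2
    linarith

/-- the integer conditions for the sign `s` and the bracket `i j k l` -/
def good (s : ℤ) (i j k l : Fin 8) : Prop :=
  c3 i j k l = 0 ∧ c4 i j k l = 0 ∧
    0 < 400 * (s * c0 i j k l) + 420 * (s * c1 i j k l) + 441 * (s * c2 i j k l) ∧
    0 < 400 * (s * c0 i j k l) + 470 * (s * c1 i j k l) + 546 * (s * c2 i j k l) ∧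
    0 < 400 * (s * c0 i j k l) + 520 * (s * c1 i j k l) + 676 * (s * c2 i j k l)

instance (s : ℤ) (i j k l : Fin 8) : Decidable (good s i j k l) := by
  unfold good
  infer_instance

theorem signs : ∀ i < 53, good (tb2 i).2.2.2.2 (tb2 i).1 (tb2 i).2.1 (tb2 i).2.2.1 (tb2 i).2.2.2.1 := by
  decide +kernel

theorem good_pos (s : ℤ) (i j k l : Fin 8) (b : ℝ) (h1 : 21 / 20 ≤ b) (h2 : b ≤ 13 / 10)
    (h : good s i j k l) : 0 < (s : ℝ) * ((c0 i j k l : ℝ) + (c1 i j k l : ℝ) * b +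
      (c2 i j k l : ℝ) * b ^ 2 + (c3 i j k l : ℝ) * b ^ 3 + (c4 i j k l : ℝ) * b ^ 4) := by
  obtain ⟨h3, h4, k0, k1, k2⟩ := h
  have k0' : (0 : ℝ) < 400 * ((s : ℝ) * c0 i j k l) + 420 * ((s : ℝ) * c1 i j k l) +
      441 * ((s : ℝ) * c2 i j k l) := by exact_mod_cast k0
  have k1' : (0 : ℝ) < 400 * ((s : ℝ) * c0 i j k l) + 470 * ((s : ℝ) * c1 i j k l) +
      546 * ((s : ℝ) * c2 i j k l) := by exact_mod_cast k1
  have k2' : (0 : ℝ) < 400 * ((s : ℝ) * c0 i j k l) + 520 * ((s : ℝ) * c1 i j k l) +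
      676 * ((s : ℝ) * c2 i j k l) := by exact_mod_cast k2
  have key := bern _ _ _ b h1 h2 k0' k1' k2'
  rw [h3, h4]
  calc (0 : ℝ) < _ := key
    _ = _ := by
      push_cast
      ring

/-- scaling factors -/
noncomputable def cf (G G' : ℝ) : Fin 8 → ℝ :=
  ![G / 21, 1 / 21, 1 / 21, 1 / 21, 1 / 21, 1 / 21, 1 / 21, G' / 21]

/-- the example -/
noncomputable def ex (b G G' : ℝ) : Fin 8 → E3 :=
  fun k => WithLp.toLp 2 ![cf G G' k * ((U k 1 : ℝ) + b * (V k 1 : ℝ)),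
    cf G G' k * ((U k 2 : ℝ) + b * (V k 2 : ℝ)), cf G G' k * ((U k 3 : ℝ) + b * (V k 3 : ℝ))]

theorem hom_ex (b G G' : ℝ) (k : Fin 8) :
    hom (ex b G G') k = fun i => cf G G' k * ((U k i : ℝ) + b * (V k i : ℝ)) := by
  funext i
  fin_cases k <;> fin_cases i <;> simp [hom, ex, cf, U, V]

theorem cf_pos (G G' : ℝ) (h : 0 < G) (h' : 0 < G') (k : Fin 8) : 0 < cf G G' k := by
  fin_cases k <;> simp [cf] <;> assumption

theorem nrm (v : E3) (r : ℝ) (hr : 0 ≤ r) (h : v 0 ^ 2 + v 1 ^ 2 + v 2 ^ 2 = r ^ 2) : ‖v‖ = r := by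
  rw [EuclideanSpace.norm_eq, Fin.sum_univ_three, Real.norm_eq_abs, Real.norm_eq_abs,
    Real.norm_eq_abs, sq_abs, sq_abs, sq_abs, h, Real.sqrt_sq hr]

theorem sgn0123 : good (-1) 0 1 2 3 := by decide +kernel

/-- EXR: the example -/
theorem exr : ∀ b : ℝ, 21 / 20 ≤ b → b ≤ 13 / 10 → ∀ G G' : ℝ, 0 < G → 0 < G' →
    ∃ x ∈ X2, D x 0 1 2 3 ≠ 0 ∧ ‖x 0‖ = G ∧ ‖x 7‖ = G' ∧ ‖x 2 - x 1‖ = 1 ∧ ‖x 3 - x 2‖ = b ∧
      ‖x 4 - x 3‖ = 1 ∧ ‖x 5 - x 4‖ = b ∧ ‖x 6 - x 5‖ = 1 := by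
  intro b hb1 hb2 G G' h h'
  refine ⟨ex b G G', ?_, ?_, ?_, ?_, ?_, ?_, ?_, ?_, ?_⟩
  · intro i hi
    unfold F2 D
    rw [hom_ex, hom_ex, hom_ex, hom_ex, d4_cast]
    have h2 := good_pos _ _ _ _ _ b hb1 hb2 (signs i hi)
    have h3 := mul_pos (mul_pos (mul_pos (mul_pos (cf_pos G G' h h' (tb2 i).1)
      (cf_pos G G' h h' (tb2 i).2.1)) (cf_pos G G' h h' (tb2 i).2.2.1))
      (cf_pos G G' h h' (tb2 i).2.2.2.1)) h2
    calc (0 : ℝ) < _ := h3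
      _ = _ := by ring
  · unfold D
    rw [hom_ex, hom_ex, hom_ex, hom_ex, d4_cast]
    have h2 := good_pos _ _ _ _ _ b hb1 hb2 sgn0123
    refine mul_ne_zero (mul_ne_zero (mul_ne_zero (mul_ne_zero (cf_pos G G' h h' _).ne'
      (cf_pos G G' h h' _).ne') (cf_pos G G' h h' _).ne') (cf_pos G G' h h' _).ne') ?_
    intro h0
    rw [h0] at h2
    simp at h2
  · refine nrm _ _ h.le ?_
    simp [ex, cf, U, V]
    ring
  · refine nrm _ _ h'.le ?_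
    simp [ex, cf, U, V]
    ring
  · refine nrm _ _ (by norm_num) ?_
    simp [ex, cf, U, V]
    norm_num
  · refine nrm _ _ (by linarith) ?_
    simp [ex, cf, U, V]
    ring
  · refine nrm _ _ (by norm_num) ?_
    simp [ex, cf, U, V]
    ring
  · refine nrm _ _ (by linarith) ?_
    simp [ex, cf, U, V]
    ring
  · refine nrm _ _ (by norm_num) ?_
    simp [ex, cf, U, V]
    ring

end Pool.Agent.LKW.H59R
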